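import Mathlib

/-!
Wronskian-type determinants for the Euler operator, over a field of characteristic zero.
-/

namespace Pool.Agent.V8H37.Pow

open Polynomial

section Univariate

variable {K : Type*} [Field K]

/-- Euler operator `X d/dX` on univariate polynomials. -/
noncomputable def theta : Module.End K K[X] :=
  (LinearMap.mulLeft K (X : K[X])) ∘ₗ (derivative : K[X] →ₗ[K] K[X])

theorem coeff_theta (f : K[X]) (n : ℕ) : (theta f).coeff n = n * f.coeff n := by
  cases n with
  | zero => simp [theta]
  | succ n => simp [theta, coeff_X_mul, coeff_derivative, mul_comm]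

theorem coeff_theta_pow (r : ℕ) (f : K[X]) (n : ℕ) :
    ((theta ^ r) f).coeff n = (n : K) ^ r * f.coeff n := by
  induction r with
  | zero => simp
  | succ r ih => rw [pow_succ', Module.End.mul_apply, coeff_theta, ih, pow_succ']; ring

theorem natDegree_theta_pow_le (r : ℕ) (f : K[X]) :
    ((theta ^ r) f).natDegree ≤ f.natDegree := by
  rw [natDegree_le_iff_coeff_eq_zero]
  intro n hn
  rw [coeff_theta_pow, coeff_eq_zero_of_natDegree_lt hn, mul_zero]

theorem det_theta_ne_zero [CharZero K] {m : ℕ} (f : Fin m → K[X])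
    (hf : LinearIndependent K f) :
    (Matrix.of fun i r : Fin m => (theta ^ (r : ℕ)) (f i)).det ≠ 0 := by
  classical
  intro hdet
  obtain ⟨q, hq0, hq⟩ := Matrix.exists_mulVec_eq_zero_iff.mpr hdet
  have hq1 : ∀ i, ∑ r : Fin m, q r * (theta ^ (r : ℕ)) (f i) = 0 := by
    intro i
    have := congrFun hq i
    simp only [Matrix.mulVec, dotProduct, Matrix.of_apply, Pi.zero_apply] at this
    rw [← this]
    exact Finset.sum_congr rfl fun r _ => mul_comm _ _
  obtain ⟨r0, hr0⟩ : ∃ r, q r ≠ 0 := by
    by_contra h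
    push Not at h
    exact hq0 (funext h)
  obtain ⟨r1, hr1, hmax⟩ := Finset.exists_max_image
    (Finset.univ.filter fun r => q r ≠ 0) (fun r => (q r).natDegree) ⟨r0, by simp [hr0]⟩
  set N := (q r1).natDegree with hN
  have hdegq : ∀ r, (q r).natDegree ≤ N := by
    intro r
    by_cases h : q r = 0
    · simp [h]
    · exact hmax r (by simp [h])
  set χ : K[X] := ∑ r : Fin m, C ((q r).coeff N) * X ^ (r : ℕ) with hχ
  have hχcoeff : ∀ r : Fin m, χ.coeff r = (q r).coeff N := by
    intro r
    rw [hχ, finsetSum_coeff]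
    rw [Finset.sum_eq_single r]
    · simp
    · intro b _ hb
      rw [coeff_C_mul, coeff_X_pow, if_neg, mul_zero]
      intro h
      exact hb (Fin.ext h.symm)
    · simp
  have hχ0 : χ ≠ 0 := by
    intro h
    have h1 := hχcoeff r1
    rw [h, coeff_zero] at h1
    have h2 : (q r1).coeff (q r1).natDegree = 0 := h1.symm
    rw [coeff_natDegree, leadingCoeff_eq_zero] at h2
    exact (Finset.mem_filter.mp hr1).2 h2
  have hm : 0 < m := Fin.pos r0
  have hχdeg : χ.natDegree < m := by
    have : χ.degree < m := by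
      rw [hχ]
      refine (degree_sum_le _ _).trans_lt ?_
      rw [Finset.sup_lt_iff (by exact_mod_cast WithBot.bot_lt_coe m)]
      intro r _
      refine (degree_C_mul_X_pow_le _ _).trans_lt ?_
      exact_mod_cast r.2
    exact (natDegree_lt_iff_degree_lt hχ0).mpr this
  -- degrees of nonzero elements are roots of χ
  have key : ∀ c : Fin m → K, (∑ i, c i • f i) ≠ 0 →
      χ.eval (((∑ i, c i • f i).natDegree : ℕ) : K) = 0 := by
    intro c hg
    set g := ∑ i, c i • f i with hgdef
    have h0 : ∑ r : Fin m, q r * (theta ^ (r : ℕ)) g = 0 := by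
      rw [hgdef]
      simp only [map_sum, map_smul, Finset.mul_sum]
      rw [Finset.sum_comm]
      refine Finset.sum_eq_zero fun i _ => ?_
      have := hq1 i
      simp only [mul_smul_comm]
      rw [← Finset.smul_sum, this, smul_zero]
    have h1 := congrArg (fun p => p.coeff (N + g.natDegree)) h0
    simp only [finsetSum_coeff, coeff_zero] at h1
    have h2 : ∀ r : Fin m, (q r * (theta ^ (r : ℕ)) g).coeff (N + g.natDegree) =
        (q r).coeff N * (((g.natDegree : ℕ) : K) ^ (r : ℕ) * g.leadingCoeff) := by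
      intro r
      rw [coeff_mul_add_eq_of_natDegree_le (hdegq r) (natDegree_theta_pow_le _ _),
        coeff_theta_pow]
      rfl
    simp only [h2, ← mul_assoc] at h1
    rw [← Finset.sum_mul] at h1
    have h3 := (mul_eq_zero.mp h1).resolve_right (by simpa using hg)
    rw [hχ, eval_finsetSum]
    simpa using h3
  set S : Finset ℕ := χ.roots.toFinset.preimage (Nat.cast : ℕ → K)
    (Nat.cast_injective.injOn) with hS
  have hScard : S.card < m := by
    have h1 : S.card ≤ χ.roots.toFinset.card := by
      refine Finset.card_le_card_of_injOn (Nat.cast : ℕ → K) ?_ (Nat.cast_injective.injOn)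
      intro x hx
      simpa [hS] using hx
    exact (h1.trans ((Multiset.toFinset_card_le _).trans (card_roots' χ))).trans_lt hχdeg
  let Φ : (Fin m → K) →ₗ[K] (S → K) :=
    { toFun := fun c d => (∑ i, c i • f i).coeff d
      map_add' := by
        intro a b; funext d
        simp [add_mul, Finset.sum_add_distrib]
      map_smul' := by
        intro a b; funext d
        simp [mul_assoc, Finset.mul_sum] }
  have hker : LinearMap.ker Φ ≠ ⊥ := by
    apply LinearMap.ker_ne_bot_of_finrank_lt
    simpa using hScard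
  obtain ⟨c, hcker, hc0⟩ := (Submodule.ne_bot_iff _).mp hker
  have hg : (∑ i, c i • f i) ≠ 0 := by
    intro h
    apply hc0
    funext i
    exact Fintype.linearIndependent_iff.mp hf c h i
  have hroot := key c hg
  have hmem : (∑ i, c i • f i).natDegree ∈ S := by
    simp only [hS, Finset.mem_preimage, Multiset.mem_toFinset]
    exact (mem_roots hχ0).mpr hroot
  have h4 : (∑ i, c i • f i).coeff (∑ i, c i • f i).natDegree = 0 :=
    congrFun (LinearMap.mem_ker.mp hcker) ⟨_, hmem⟩
  rw [coeff_natDegree, leadingCoeff_eq_zero] at h4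
  exact hg h4

end Univariate

section Multi

open MvPolynomial

variable {K : Type*} [Field K] {n : ℕ}

/-- The weighted Euler derivation `∑ λ_i X_i ∂_i`. -/
noncomputable def eul (lam : Fin n → ℕ) :
    Derivation K (MvPolynomial (Fin n) K) (MvPolynomial (Fin n) K) :=
  MvPolynomial.mkDerivation K (fun i => MvPolynomial.C (lam i : K) * MvPolynomial.X i)

/-- Weight of an exponent vector. -/
def wt (lam : Fin n → ℕ) (s : Fin n →₀ ℕ) : ℕ := ∑ i, lam i * s i

theorem eul_monomial (lam : Fin n → ℕ) (s : Fin n →₀ ℕ) (r : K) :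
    eul lam (MvPolynomial.monomial s r) = MvPolynomial.monomial s ((wt lam s : K) * r) := by
  rw [eul, mkDerivation_monomial, Finsupp.sum_fintype _ _ (by simp)]
  have h : ∀ i : Fin n, (MvPolynomial.monomial (s - Finsupp.single i 1) ((s i : ℕ) : K)) •
      (MvPolynomial.C (lam i : K) * MvPolynomial.X i : MvPolynomial (Fin n) K) =
      MvPolynomial.monomial s ((lam i : K) * (s i : K)) := by
    intro i
    rw [smul_eq_mul, MvPolynomial.X, MvPolynomial.C_mul_monomial, MvPolynomial.monomial_mul]
    by_cases hi : s i = 0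
    · simp [hi]
    · have : s - Finsupp.single i 1 + Finsupp.single i 1 = s := by
        apply tsub_add_cancel_of_le
        rwa [Finsupp.single_le_iff, Nat.succ_le_iff, pos_iff_ne_zero]
      rw [this]
      congr 1
      ring
  simp only [h]
  rw [← map_sum, MvPolynomial.smul_monomial]
  congr 1
  simp only [wt, Nat.cast_sum, Nat.cast_mul, smul_eq_mul]
  ring

theorem coeff_eul (lam : Fin n → ℕ) (f : MvPolynomial (Fin n) K) (s : Fin n →₀ ℕ) :
    MvPolynomial.coeff s (eul lam f) = (wt lam s : K) * MvPolynomial.coeff s f := by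
  classical
  induction f using MvPolynomial.induction_on' with
  | monomial u a =>
    rw [eul_monomial, MvPolynomial.coeff_monomial, MvPolynomial.coeff_monomial]
    split_ifs with h
    · rw [h]
    · simp
  | add p q hp hq =>
    rw [map_add, MvPolynomial.coeff_add, MvPolynomial.coeff_add, hp, hq]
    ring

/-- Iterates of the weighted Euler derivation. -/
noncomputable def eulIt (lam : Fin n → ℕ) (r : ℕ) (f : MvPolynomial (Fin n) K) :
    MvPolynomial (Fin n) K := ((eul lam) : MvPolynomial (Fin n) K → MvPolynomial (Fin n) K)^[r] f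

theorem eulIt_succ (lam : Fin n → ℕ) (r : ℕ) (f : MvPolynomial (Fin n) K) :
    eulIt lam (r + 1) f = eul lam (eulIt lam r f) := by
  simp only [eulIt, Function.iterate_succ_apply']

theorem coeff_eulIt (lam : Fin n → ℕ) (r : ℕ) (f : MvPolynomial (Fin n) K) (s : Fin n →₀ ℕ) :
    MvPolynomial.coeff s (eulIt lam r f) = (wt lam s : K) ^ r * MvPolynomial.coeff s f := by
  induction r with
  | zero => simp [eulIt]
  | succ r ih => rw [eulIt_succ, coeff_eul, ih]; ring

theorem totalDegree_eulIt_le (lam : Fin n → ℕ) (r : ℕ) (f : MvPolynomial (Fin n) K) :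
    (eulIt lam r f).totalDegree ≤ f.totalDegree := by
  apply MvPolynomial.totalDegree_le_of_support_subset
  intro s hs
  rw [MvPolynomial.mem_support_iff] at hs ⊢
  rw [coeff_eulIt] at hs
  exact right_ne_zero_of_mul hs

theorem eulIt_smul (lam : Fin n → ℕ) (r : ℕ) (c : K) (f : MvPolynomial (Fin n) K) :
    eulIt lam r (c • f) = c • eulIt lam r f := by
  ext s
  rw [coeff_eulIt, MvPolynomial.coeff_smul, MvPolynomial.coeff_smul, coeff_eulIt]
  simp only [smul_eq_mul]
  ring

theorem eulIt_sum {ι : Type*} (S : Finset ι) (lam : Fin n → ℕ) (r : ℕ)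
    (f : ι → MvPolynomial (Fin n) K) :
    eulIt lam r (∑ i ∈ S, f i) = ∑ i ∈ S, eulIt lam r (f i) := by
  ext s
  rw [coeff_eulIt, MvPolynomial.coeff_sum, MvPolynomial.coeff_sum, Finset.mul_sum]
  exact Finset.sum_congr rfl fun i _ => (coeff_eulIt _ _ _ _).symm

/-- Divisibility by a power decreases by at most one under the derivation. -/
theorem pow_dvd_eul (lam : Fin n → ℕ) (P f : MvPolynomial (Fin n) K) (a : ℕ)
    (h : P ^ a ∣ f) : P ^ (a - 1) ∣ eul lam f := by
  obtain ⟨g, rfl⟩ := h
  rw [Derivation.leibniz, smul_eq_mul, smul_eq_mul]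
  apply dvd_add
  · exact Dvd.dvd.mul_right (pow_dvd_pow _ (Nat.sub_le a 1)) _
  · rw [Derivation.leibniz_pow]
    simp only [smul_eq_mul, nsmul_eq_mul]
    exact Dvd.dvd.mul_left (Dvd.dvd.mul_left (Dvd.dvd.mul_right dvd_rfl _) _) _

theorem pow_dvd_eulIt (lam : Fin n → ℕ) (P f : MvPolynomial (Fin n) K) (a r : ℕ)
    (h : P ^ a ∣ f) : P ^ (a - r) ∣ eulIt lam r f := by
  induction r with
  | zero => simpa [eulIt] using h
  | succ r ih =>
    rw [eulIt_succ, Nat.sub_succ]
    exact pow_dvd_eul lam P _ _ ih

/-- Kronecker substitution `X_i ↦ t^{λ_i}`. -/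
noncomputable def kron (lam : Fin n → ℕ) : MvPolynomial (Fin n) K →ₐ[K] K[X] :=
  MvPolynomial.aeval (fun i => (Polynomial.X : K[X]) ^ (lam i))

theorem kron_monomial (lam : Fin n → ℕ) (s : Fin n →₀ ℕ) (r : K) :
    kron lam (MvPolynomial.monomial s r) = Polynomial.monomial (wt lam s) r := by
  rw [kron, MvPolynomial.aeval_monomial, Finsupp.prod_fintype _ _ (by simp)]
  simp only [← pow_mul]
  rw [Finset.prod_pow_eq_pow_sum, ← Polynomial.C_mul_X_pow_eq_monomial]
  rfl

theorem kron_eulIt (lam : Fin n → ℕ) (r : ℕ) (f : MvPolynomial (Fin n) K) :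
    kron lam (eulIt lam r f) = (theta ^ r) (kron lam f) := by
  induction r with
  | zero => simp [eulIt]
  | succ r ih =>
    rw [eulIt_succ, pow_succ', Module.End.mul_apply, ← ih]
    generalize eulIt lam r f = g
    induction g using MvPolynomial.induction_on' with
    | monomial u a =>
      rw [eul_monomial, kron_monomial, kron_monomial]
      ext k
      rw [coeff_theta, Polynomial.coeff_monomial, Polynomial.coeff_monomial]
      split_ifs with h
      · rw [h]
      · simp
    | add p q hp hq => rw [map_add, map_add, map_add, map_add, hp, hq]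

theorem kron_eq_sum (lam : Fin n → ℕ) (f : MvPolynomial (Fin n) K) :
    kron lam f = ∑ s ∈ f.support, Polynomial.monomial (wt lam s) (MvPolynomial.coeff s f) := by
  conv_lhs => rw [MvPolynomial.as_sum f]
  rw [map_sum]
  exact Finset.sum_congr rfl fun s _ => kron_monomial _ _ _

theorem kron_eq_zero (lam : Fin n → ℕ) (S : Finset (Fin n →₀ ℕ))
    (hinj : Set.InjOn (wt lam) S) (f : MvPolynomial (Fin n) K) (hf : f.support ⊆ S)
    (h : kron lam f = 0) : f = 0 := by
  ext s
  by_cases hs : s ∈ f.support
  · have h1 := congrArg (fun p => Polynomial.coeff p (wt lam s)) h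
    simp only [kron_eq_sum, Polynomial.finsetSum_coeff, Polynomial.coeff_zero] at h1
    rw [Finset.sum_eq_single s] at h1
    · simpa using h1
    · intro b hb hbs
      rw [Polynomial.coeff_monomial, if_neg]
      intro heq
      exact hbs (hinj (hf hb) (hf hs) heq)
    · intro h2; exact absurd hs h2
  · simpa using hs

theorem exists_wt_injOn (S : Finset (Fin n →₀ ℕ)) :
    ∃ lam : Fin n → ℕ, Set.InjOn (wt lam) S := by
  classical
  set b : ℕ := 2 + ∑ s ∈ S, ∑ i, s i with hb
  have hlt : ∀ s ∈ S, ∀ i, s i < b := by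
    intro s hs i
    have h1 : s i ≤ ∑ i, s i := Finset.single_le_sum (f := fun i => s i) (by simp)
      (Finset.mem_univ i)
    have h2 : ∑ i, s i ≤ ∑ s ∈ S, ∑ i, s i :=
      Finset.single_le_sum (f := fun s : Fin n →₀ ℕ => ∑ i, s i) (by simp) hs
    omega
  refine ⟨fun i => b ^ (i : ℕ), ?_⟩
  intro v hv w hw h
  refine Finsupp.ext <| congrFun <| List.ofFn_inj.mp ?_
  apply Nat.ofDigits_inj_of_len_eq (b := b) (by omega) (by simp)
  · intro l hl
    obtain ⟨i, rfl⟩ := List.mem_ofFn.mp hl
    exact hlt v hv i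
  · intro l hl
    obtain ⟨i, rfl⟩ := List.mem_ofFn.mp hl
    exact hlt w hw i
  · simpa only [wt, Nat.ofDigits_eq_sum_mapIdx, List.mapIdx_eq_ofFn, List.get_ofFn,
      List.length_ofFn, Fin.val_cast, mul_comm, List.sum_ofFn] using! h

/-- Nonvanishing of a weighted Euler Wronskian of linearly independent polynomials. -/
theorem exists_det_ne_zero [CharZero K] {m : ℕ} (t : Fin m → MvPolynomial (Fin n) K)
    (ht : LinearIndependent K t) :
    ∃ lam : Fin n → ℕ, (Matrix.of fun i r : Fin m => eulIt lam (r : ℕ) (t i)).det ≠ 0 := by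
  classical
  obtain ⟨lam, hlam⟩ := exists_wt_injOn (Finset.univ.biUnion fun i => (t i).support)
  refine ⟨lam, fun hdet => ?_⟩
  have h1 : LinearIndependent K (fun i => kron lam (t i)) := by
    rw [Fintype.linearIndependent_iff]
    intro c hc
    have h2 : kron lam (∑ i, c i • t i) = 0 := by
      rw [map_sum, ← hc]
      exact Finset.sum_congr rfl fun i _ => map_smul _ _ _
    have h3 : (∑ i, c i • t i) = 0 := by
      refine kron_eq_zero lam _ hlam _ ?_ h2
      intro s hs
      have := MvPolynomial.support_sum hs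
      rw [Finset.mem_biUnion] at this ⊢
      obtain ⟨i, hi, hs⟩ := this
      exact ⟨i, hi, MvPolynomial.support_smul hs⟩
    exact Fintype.linearIndependent_iff.mp ht c h3
  apply det_theta_ne_zero _ h1
  have h4 := congrArg (kron lam) hdet
  rw [map_zero, AlgHom.map_det] at h4
  rw [← h4]
  congr 1
  ext i r : 2
  simp only [Matrix.of_apply, AlgHom.mapMatrix_apply, Matrix.map_apply]
  rw [kron_eulIt]

end Multi

end Pool.Agent.V8H37.Pow
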