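import Mathlib
import Pool.Agent.V8H37.Pow.Wron

/-!
A Mason-Stothers type inequality for sums of several products of powers of pairwise coprime
multivariate polynomials, and its consequence: a vanishing sum splits into vanishing sums of
terms with close exponents.
-/

namespace Pool.Agent.V8H37.Pow

open MvPolynomial

variable {K : Type*} [Field K] {n : ℕ}

theorem pow_dvd_det {m : ℕ} (lam : Fin n → ℕ) (P : MvPolynomial (Fin n) K)
    (t : Fin m → MvPolynomial (Fin n) K) (b : Fin m → ℕ) (h : ∀ i, P ^ b i ∣ t i) :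
    P ^ (∑ i, b i - ∑ r : Fin m, (r : ℕ)) ∣
      (Matrix.of fun i r : Fin m => eulIt lam (r : ℕ) (t i)).det := by
  rw [Matrix.det_apply]
  apply Finset.dvd_sum
  intro σ _
  rw [Units.smul_def, zsmul_eq_mul]
  apply Dvd.dvd.mul_left
  have h1 : ∏ r : Fin m, P ^ (b (σ r) - (r : ℕ)) ∣
      ∏ r : Fin m, (Matrix.of fun i r : Fin m => eulIt lam (r : ℕ) (t i)) (σ r) r := by
    apply Finset.prod_dvd_prod_of_dvd
    intro r _
    exact pow_dvd_eulIt lam P _ _ _ (h (σ r))
  refine dvd_trans ?_ h1
  rw [Finset.prod_pow_eq_pow_sum]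
  apply pow_dvd_pow
  have h2 : ∑ i, b i = ∑ r, b (σ r) := (Equiv.sum_comp σ b).symm
  rw [h2]
  have h3 : ∑ r, b (σ r) ≤ ∑ r, (b (σ r) - (r : ℕ)) + ∑ r : Fin m, (r : ℕ) := by
    rw [← Finset.sum_add_distrib]
    exact Finset.sum_le_sum fun r _ => le_tsub_add
  omega

theorem totalDegree_det_le {m : ℕ} (lam : Fin n → ℕ) (t : Fin m → MvPolynomial (Fin n) K) :
    (Matrix.of fun i r : Fin m => eulIt lam (r : ℕ) (t i)).det.totalDegree ≤
      ∑ i, (t i).totalDegree := by
  rw [Matrix.det_apply]
  apply MvPolynomial.totalDegree_finsetSum_le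
  intro σ _
  rw [Units.smul_def, zsmul_eq_mul]
  have h1 : (((Equiv.Perm.sign σ : ℤ) : MvPolynomial (Fin n) K)).totalDegree = 0 := by
    have : (((Equiv.Perm.sign σ : ℤ) : MvPolynomial (Fin n) K)) =
        MvPolynomial.C ((Equiv.Perm.sign σ : ℤ) : K) := by simp
    rw [this, MvPolynomial.totalDegree_C]
  refine (MvPolynomial.totalDegree_mul _ _).trans ?_
  rw [h1, zero_add]
  refine (MvPolynomial.totalDegree_finsetProd _ _).trans ?_
  rw [← Equiv.sum_comp σ (fun i => (t i).totalDegree)]
  exact Finset.sum_le_sum fun r _ => totalDegree_eulIt_le _ _ _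

theorem totalDegree_pow_eq (P : MvPolynomial (Fin n) K) (hP : P ≠ 0) (a : ℕ) :
    (P ^ a).totalDegree = a * P.totalDegree := by
  induction a with
  | zero => simp
  | succ a ih =>
    rw [pow_succ, MvPolynomial.totalDegree_mul_of_isDomain (pow_ne_zero _ hP) hP, ih]
    ring

theorem totalDegree_prod_eq {ι : Type*} (S : Finset ι) (f : ι → MvPolynomial (Fin n) K)
    (hf : ∀ i, f i ≠ 0) :
    (∏ i ∈ S, f i).totalDegree = ∑ i ∈ S, (f i).totalDegree := by
  classical
  induction S using Finset.induction_on with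
  | empty => simp
  | insert a S ha ih =>
    rw [Finset.prod_insert ha, Finset.sum_insert ha, MvPolynomial.totalDegree_mul_of_isDomain
      (hf a) (Finset.prod_ne_zero_iff.mpr fun i _ => hf i), ih]

theorem mason [CharZero K] {m N : ℕ} (P : Fin N → MvPolynomial (Fin n) K)
    (hP : ∀ j, 1 ≤ (P j).totalDegree)
    (hcop : Pairwise (Function.onFun IsRelPrime P))
    (Q : Fin m → MvPolynomial (Fin n) K) (e : Fin m → Fin N → ℕ)
    (Q' : MvPolynomial (Fin n) K) (e' : Fin N → ℕ) (a : Fin m → K)
    (hind : LinearIndependent K (fun i => Q i * ∏ j, P j ^ e i j))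
    (hrel : Q' * ∏ j, P j ^ e' j = ∑ i, a i • (Q i * ∏ j, P j ^ e i j))
    (i0 : Fin m) (ha : a i0 ≠ 0) (j0 : Fin N) :
    e' j0 ≤ e i0 j0 + ((∑ r : Fin m, (r : ℕ)) * ∑ j, (P j).totalDegree +
      ∑ i, (Q i).totalDegree) := by
  classical
  obtain ⟨lam, hdet⟩ := exists_det_ne_zero _ hind
  set t : Fin m → MvPolynomial (Fin n) K := fun i => Q i * ∏ j, P j ^ e i j with ht
  set W := (Matrix.of fun i r : Fin m => eulIt lam (r : ℕ) (t i)).det with hW
  set M2 := ∑ r : Fin m, (r : ℕ) with hM2
  have hPd : ∀ (j : Fin N) (x : MvPolynomial (Fin n) K) (c : Fin N → ℕ),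
      P j ^ c j ∣ x * ∏ j, P j ^ c j := by
    intro j x c
    exact Dvd.dvd.mul_left (Finset.dvd_prod_of_mem (fun j => P j ^ c j) (Finset.mem_univ j)) _
  -- divisibility for all j
  have hdvd1 : ∀ j, P j ^ (∑ i, e i j - M2) ∣ W := by
    intro j
    exact pow_dvd_det lam (P j) t (fun i => e i j) fun i => hPd j _ _
  -- divisibility for j0 with the row i0 exchanged
  set b : Fin m → ℕ := Function.update (fun i => e i j0) i0 (e' j0) with hb
  have hdvd2 : P j0 ^ (∑ i, b i - M2) ∣ W := by
    have h1 := pow_dvd_det lam (P j0) (Function.update t i0 (Q' * ∏ j, P j ^ e' j)) b (by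
      intro i
      by_cases hi : i = i0
      · subst hi
        simp only [hb, Function.update_self]
        exact hPd j0 _ _
      · simp only [hb, Function.update_of_ne hi]
        exact hPd j0 _ _)
    have h2 : (Matrix.of fun i r : Fin m =>
        eulIt lam (r : ℕ) (Function.update t i0 (Q' * ∏ j, P j ^ e' j) i)) =
        (Matrix.of fun i r : Fin m => eulIt lam (r : ℕ) (t i)).updateRow i0
          (∑ i, (C (a i) : MvPolynomial (Fin n) K) •
            (Matrix.of fun i r : Fin m => eulIt lam (r : ℕ) (t i)) i) := by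
      refine Matrix.ext fun i r => ?_
      rw [Matrix.of_apply]
      by_cases hi : i = i0
      · subst hi
        rw [Function.update_self, Matrix.updateRow_self, hrel, eulIt_sum, Finset.sum_apply]
        refine Finset.sum_congr rfl fun i _ => ?_
        rw [eulIt_smul, Pi.smul_apply, Matrix.of_apply, smul_eq_mul, MvPolynomial.smul_eq_C_mul]
      · rw [Function.update_of_ne hi, Matrix.updateRow_ne hi, Matrix.of_apply]
    rw [h2, Matrix.det_updateRow_sum] at h1
    rw [smul_eq_mul, ← MvPolynomial.smul_eq_C_mul] at h1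
    obtain ⟨g, hg⟩ := h1
    refine ⟨(a i0)⁻¹ • g, ?_⟩
    rw [mul_smul_comm, ← hg, smul_smul, inv_mul_cancel₀ ha, one_smul]
  -- combine
  set c : Fin N → ℕ := Function.update (fun j => ∑ i, e i j - M2) j0 (∑ i, b i - M2) with hc
  have hdvd : ∏ j, P j ^ c j ∣ W := by
    apply Finset.prod_dvd_of_isRelPrime
    · intro j _ j' _ hjj
      exact (hcop hjj).pow
    · intro j _
      by_cases hj : j = j0
      · subst hj
        simpa only [hc, Function.update_self] using hdvd2
      · simpa only [hc, Function.update_of_ne hj] using hdvd1 j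
  have hP0 : ∀ j, P j ≠ 0 := by
    intro j h
    have := hP j
    rw [h, MvPolynomial.totalDegree_zero] at this
    omega
  have hdegprod : ∀ (x : Fin N → ℕ), (∏ j, P j ^ x j).totalDegree =
      ∑ j, x j * (P j).totalDegree := by
    intro x
    rw [totalDegree_prod_eq _ _ (fun j => pow_ne_zero _ (hP0 j))]
    exact Finset.sum_congr rfl fun j _ => totalDegree_pow_eq _ (hP0 j) _
  have hdeg1 : ∑ j, c j * (P j).totalDegree ≤ W.totalDegree := by
    obtain ⟨g, hg⟩ := hdvd
    have hg0 : g ≠ 0 := by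
      rintro rfl
      exact hdet (by rw [hg, mul_zero])
    have hprod0 : ∏ j, P j ^ c j ≠ 0 := Finset.prod_ne_zero_iff.mpr
      fun j _ => pow_ne_zero _ (hP0 j)
    rw [hg, MvPolynomial.totalDegree_mul_of_isDomain hprod0 hg0, hdegprod]
    exact Nat.le_add_right _ _
  have hdeg2 : W.totalDegree ≤ ∑ i, ((Q i).totalDegree + ∑ j, e i j * (P j).totalDegree) := by
    refine (totalDegree_det_le lam t).trans (Finset.sum_le_sum fun i _ => ?_)
    refine (MvPolynomial.totalDegree_mul _ _).trans ?_
    rw [hdegprod]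
  have hdeg3 := hdeg1.trans hdeg2
  rw [Finset.sum_add_distrib, Finset.sum_comm] at hdeg3
  -- rewrite both sides
  have hsumb : ∑ i, b i + e i0 j0 = ∑ i, e i j0 + e' j0 := by
    rw [hb, Finset.sum_update_of_mem (Finset.mem_univ i0)]
    rw [← Finset.add_sum_erase Finset.univ (fun i => e i j0) (Finset.mem_univ i0)]
    rw [Finset.sdiff_singleton_eq_erase]
    ring
  have hlow : ∑ j, (∑ i, e i j) * (P j).totalDegree + e' j0 * (P j0).totalDegree ≤
      ∑ j, c j * (P j).totalDegree + M2 * ∑ j, (P j).totalDegree +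
        e i0 j0 * (P j0).totalDegree := by
    rw [← Finset.add_sum_erase Finset.univ (fun j => (∑ i, e i j) * (P j).totalDegree)
      (Finset.mem_univ j0), ← Finset.add_sum_erase Finset.univ (fun j => c j * (P j).totalDegree)
      (Finset.mem_univ j0), ← Finset.add_sum_erase Finset.univ (fun j => (P j).totalDegree)
      (Finset.mem_univ j0)]
    have h1 : ∑ j ∈ Finset.univ.erase j0, (∑ i, e i j) * (P j).totalDegree ≤
        ∑ j ∈ Finset.univ.erase j0, c j * (P j).totalDegree +
          M2 * ∑ j ∈ Finset.univ.erase j0, (P j).totalDegree := by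
      rw [Finset.mul_sum, ← Finset.sum_add_distrib]
      apply Finset.sum_le_sum
      intro j hj
      have hj' : j ≠ j0 := Finset.ne_of_mem_erase hj
      rw [← add_mul]
      apply Nat.mul_le_mul_right
      simp only [hc, Function.update_of_ne hj']
      omega
    have h2 : (∑ i, e i j0) * (P j0).totalDegree + e' j0 * (P j0).totalDegree ≤
        c j0 * (P j0).totalDegree + M2 * (P j0).totalDegree + e i0 j0 * (P j0).totalDegree := by
      rw [← add_mul, ← add_mul, ← add_mul]
      apply Nat.mul_le_mul_right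
      simp only [hc, Function.update_self]
      omega
    have h3 : ∀ A1 A2 A3 B1 B2 B3 B4 B5 B6 : ℕ, A1 ≤ B1 + B2 → A2 + A3 ≤ B3 + B4 + B5 →
        A2 + A1 + A3 ≤ B3 + B1 + (B4 + B2) + B5 := by
      intros; omega
    have h4 := h3 _ _ _ _ _ _ _ _ 0 h1 h2
    rw [mul_add]
    exact h4
  have hsw : ∑ j, ∑ i, e i j * (P j).totalDegree = ∑ j, (∑ i, e i j) * (P j).totalDegree := by
    exact Finset.sum_congr rfl fun j _ => (Finset.sum_mul _ _ _).symm
  rw [hsw] at hdeg3
  have hfin : e' j0 * (P j0).totalDegree ≤ e i0 j0 * (P j0).totalDegree +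
      (M2 * ∑ j, (P j).totalDegree + ∑ i, (Q i).totalDegree) := by omega
  have hd := hP j0
  by_contra hcon
  push Not at hcon
  have h5 : (e i0 j0 + (M2 * ∑ j, (P j).totalDegree + ∑ i, (Q i).totalDegree) + 1) *
      (P j0).totalDegree ≤ e' j0 * (P j0).totalDegree := Nat.mul_le_mul_right _ hcon
  have h6 : (M2 * ∑ j, (P j).totalDegree + ∑ i, (Q i).totalDegree + 1) * 1 ≤
      (M2 * ∑ j, (P j).totalDegree + ∑ i, (Q i).totalDegree + 1) * (P j0).totalDegree :=
    Nat.mul_le_mul_left _ hd
  have h7 : (e i0 j0 + (M2 * ∑ j, (P j).totalDegree + ∑ i, (Q i).totalDegree) + 1) *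
      (P j0).totalDegree = e i0 j0 * (P j0).totalDegree +
      (M2 * ∑ j, (P j).totalDegree + ∑ i, (Q i).totalDegree + 1) * (P j0).totalDegree := by
    ring
  omega

end Pool.Agent.V8H37.Pow
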