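import Mathlib
import Pool.Agent.V8H37.Pow.Mason

/-!
Splitting of vanishing sums of power products into clusters of terms with close exponents.
-/

namespace Pool.Agent.V8H37.Pow

open MvPolynomial

section LinearAlgebra

variable {K V ι : Type*} [Field K] [AddCommGroup V] [Module K V] [Fintype ι]

/-- `b` is a nonzero relation among the vectors `T` whose support is minimal. -/
def MinRel (T : ι → V) (b : ι → K) : Prop :=
  b ≠ 0 ∧ ∑ i, b i • T i = 0 ∧
    ∀ b' : ι → K, ∑ i, b' i • T i = 0 → (∀ i, b i = 0 → b' i = 0) →
      (∃ i, b i ≠ 0 ∧ b' i = 0) → b' = 0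

theorem class_sum_eq_zero (T : ι → V) (p : ι → Prop) [DecidablePred p]
    (hp : ∀ b : ι → K, MinRel T b → ∀ i i', b i ≠ 0 → b i' ≠ 0 → (p i ↔ p i'))
    (a : ι → K) (ha : ∑ i, a i • T i = 0) :
    ∑ i, (if p i then a i • T i else 0) = 0 := by
  classical
  -- strong induction on the size of the support
  have main : ∀ s : ℕ, ∀ a : ι → K, (Finset.univ.filter fun i => a i ≠ 0).card = s →
      ∑ i, a i • T i = 0 → ∑ i, (if p i then a i • T i else 0) = 0 := by
    intro s
    induction s using Nat.strong_induction_on with
    | _ s ih =>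
      intro a hs ha
      by_cases ha0 : a = 0
      · subst ha0; simp
      -- a nonzero relation with support inside supp a of minimal size
      have hex : ∃ k, ∃ b : ι → K, b ≠ 0 ∧ ∑ i, b i • T i = 0 ∧ (∀ i, a i = 0 → b i = 0) ∧
          (Finset.univ.filter fun i => b i ≠ 0).card = k := ⟨_, a, ha0, ha, fun _ h => h, rfl⟩
      obtain ⟨b, hb0, hb, hba, hbk⟩ := Nat.find_spec hex
      have hmin : MinRel T b := by
        refine ⟨hb0, hb, ?_⟩
        intro b' hb' hsub ⟨i, hi, hi'⟩
        by_contra hne
        have hlt : (Finset.univ.filter fun i => b' i ≠ 0).card < Nat.find hex := by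
          rw [← hbk]
          apply Finset.card_lt_card
          refine ⟨?_, ?_⟩
          · intro j hj
            simp only [Finset.mem_filter, Finset.mem_univ, true_and] at hj ⊢
            exact fun h => hj (hsub j h)
          · intro h
            have := h (show i ∈ Finset.univ.filter fun i => b i ≠ 0 by simp [hi])
            simp [hi'] at this
        exact Nat.find_min hex hlt ⟨b', hne, hb', fun j hj => hsub j (hba j hj), rfl⟩
      obtain ⟨i, hi⟩ : ∃ i, b i ≠ 0 := by
        by_contra h
        push Not at h
        exact hb0 (funext h)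
      have hbclass : ∑ j, (if p j then b j • T j else 0) = 0 := by
        by_cases hpi : p i
        · refine Eq.trans (Finset.sum_congr rfl fun j _ => ?_) hb
          by_cases hj : b j = 0
          · simp [hj]
          · rw [if_pos ((hp b hmin i j hi hj).mp hpi)]
        · refine Finset.sum_eq_zero fun j _ => ?_
          by_cases hj : b j = 0
          · simp [hj]
          · rw [if_neg (fun h => hpi ((hp b hmin i j hi hj).mpr h))]
      set c : K := a i / b i with hc
      have hcard : (Finset.univ.filter fun j => (a j - c * b j) ≠ 0).card < s := by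
        rw [← hs]
        apply Finset.card_lt_card
        refine ⟨?_, ?_⟩
        · intro j hj
          simp only [Finset.mem_filter, Finset.mem_univ, true_and] at hj ⊢
          intro h
          apply hj
          rw [h, hba j h]
          simp
        · intro h
          have hai : a i ≠ 0 := fun h => hi (hba i h)
          have := h (show i ∈ Finset.univ.filter fun i => a i ≠ 0 by simp [hai])
          simp only [Finset.mem_filter, Finset.mem_univ, true_and] at this
          apply this
          rw [hc, div_mul_cancel₀ _ hi, sub_self]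
      have h1 := ih _ hcard (fun j => a j - c * b j) rfl (by
        simp only [sub_smul, mul_smul, Finset.sum_sub_distrib]
        rw [ha, ← Finset.smul_sum, hb, smul_zero, sub_zero])
      have h2 : ∑ j, (if p j then a j • T j else 0) =
          ∑ j, (if p j then (a j - c * b j) • T j else 0) +
            c • ∑ j, (if p j then b j • T j else 0) := by
        rw [Finset.smul_sum, ← Finset.sum_add_distrib]
        refine Finset.sum_congr rfl fun j _ => ?_
        split_ifs
        · rw [smul_smul, ← add_smul]; congr 1; ring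
        · simp
      rw [h2, h1, hbclass, smul_zero, add_zero]
  exact main _ a rfl ha

end LinearAlgebra

section Clusters

variable {k N : ℕ}

/-- Two distinct terms are adjacent if all their exponents differ by at most `B`. -/
def closeGraph (B : ℕ) (e : Fin k → Fin N → ℕ) : SimpleGraph (Fin k) where
  Adj i i' := i ≠ i' ∧ ∀ j, e i j ≤ e i' j + B ∧ e i' j ≤ e i j + B
  symm := ⟨fun _ _ h => ⟨h.1.symm, fun j => ⟨(h.2 j).2, (h.2 j).1⟩⟩⟩
  loopless := ⟨fun _ h => h.1 rfl⟩

open Classical in
/-- The cluster (connected component) of the term `i`. -/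
noncomputable def cluster (B : ℕ) (e : Fin k → Fin N → ℕ) (i : Fin k) : Finset (Fin k) :=
  Finset.univ.filter fun i' => (closeGraph B e).Reachable i i'

theorem mem_cluster_self (B : ℕ) (e : Fin k → Fin N → ℕ) (i : Fin k) : i ∈ cluster B e i := by
  simp [cluster]

/-- The least exponent of the `j`-th base polynomial in the cluster of `i`. -/
noncomputable def low (B : ℕ) (e : Fin k → Fin N → ℕ) (i : Fin k) (j : Fin N) : ℕ :=
  (cluster B e i).inf' ⟨i, mem_cluster_self B e i⟩ fun i' => e i' j

theorem low_le (B : ℕ) (e : Fin k → Fin N → ℕ) (i i' : Fin k) (h : i' ∈ cluster B e i)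
    (j : Fin N) : low B e i j ≤ e i' j :=
  Finset.inf'_le _ h

theorem walk_bound (B : ℕ) (e : Fin k → Fin N → ℕ) {i i' : Fin k}
    (w : (closeGraph B e).Walk i i') (j : Fin N) : e i' j ≤ e i j + w.length * B := by
  induction w with
  | nil => simp
  | cons h p ih =>
    have h1 := (h.2 j).2
    rw [SimpleGraph.Walk.length_cons, add_mul]
    omega

theorem reachable_bound (B : ℕ) (e : Fin k → Fin N → ℕ) {i i' : Fin k}
    (h : (closeGraph B e).Reachable i i') (j : Fin N) : e i' j ≤ e i j + (k - 1) * B := by
  classical
  obtain ⟨p, hp⟩ := h.exists_isPath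
  have h1 := walk_bound B e p j
  have h2 := hp.length_lt
  rw [Fintype.card_fin] at h2
  have h3 : p.length * B ≤ (k - 1) * B := Nat.mul_le_mul_right _ (by omega)
  omega

theorem sub_low_le (B : ℕ) (e : Fin k → Fin N → ℕ) (i i' : Fin k) (h : i' ∈ cluster B e i)
    (j : Fin N) : e i' j - low B e i j ≤ (k - 1) * B := by
  obtain ⟨i'', hi'', heq⟩ := Finset.exists_mem_eq_inf' (⟨i, mem_cluster_self B e i⟩ :
    (cluster B e i).Nonempty) (fun i' => e i' j)
  have h1 : (closeGraph B e).Reachable i'' i' := by
    simp only [cluster, Finset.mem_filter, Finset.mem_univ, true_and] at h hi''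
    exact hi''.symm.trans h
  have h2 := reachable_bound B e h1 j
  rw [low, heq]
  omega

end Clusters

variable {K : Type*} [Field K] {n : ℕ}

/-- Exponents inside the support of a minimal relation are close. -/
theorem minRel_close [CharZero K] {k N : ℕ} (P : Fin N → MvPolynomial (Fin n) K)
    (hP : ∀ j, 1 ≤ (P j).totalDegree)
    (hcop : Pairwise (Function.onFun IsRelPrime P))
    (Q : Fin k → MvPolynomial (Fin n) K) (e : Fin k → Fin N → ℕ)
    (b : Fin k → K) (hb : MinRel (fun i => Q i * ∏ j, P j ^ e i j) b)
    (i0 i1 : Fin k) (h0 : b i0 ≠ 0) (h1 : b i1 ≠ 0) (j0 : Fin N) :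
    e i1 j0 ≤ e i0 j0 + ((k - 1) * (k - 2) / 2 * ∑ j, (P j).totalDegree +
      ∑ i, (Q i).totalDegree) := by
  classical
  by_cases h01 : i0 = i1
  · subst h01; exact Nat.le_add_right _ _
  obtain ⟨hb0, hbrel, hbmin⟩ := hb
  -- enumerate the support without i1
  set S : Finset (Fin k) := (Finset.univ.filter fun i => b i ≠ 0).erase i1 with hS
  set m := S.card with hm
  set φ : Fin m ≃ S := S.equivFin.symm with hφ
  have hmk : m ≤ k - 1 := by
    have : S.card ≤ (Finset.univ.erase i1 : Finset (Fin k)).card := by
      apply Finset.card_le_card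
      exact Finset.erase_subset_erase _ (Finset.subset_univ _)
    rw [Finset.card_erase_of_mem (Finset.mem_univ _), Finset.card_univ, Fintype.card_fin] at this
    exact this
  have hsumS : ∀ f : Fin k → MvPolynomial (Fin n) K, ∑ x : Fin m, f (φ x) = ∑ i ∈ S, f i := by
    intro f
    rw [Equiv.sum_comp φ (fun x : S => f x), Finset.sum_coe_sort S f]
  set T : Fin k → MvPolynomial (Fin n) K := fun i => Q i * ∏ j, P j ^ e i j with hT
  have hind : LinearIndependent K (fun x : Fin m => T (φ x)) := by
    rw [Fintype.linearIndependent_iff]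
    intro c hc
    set b' : Fin k → K := fun i => if h : i ∈ S then c (φ.symm ⟨i, h⟩) else 0 with hb'
    have hb'1 : ∀ x : Fin m, b' (φ x) = c x := by
      intro x
      simp [hb', (φ x).2]
    have h2 : ∑ i, b' i • T i = 0 := by
      rw [← hc]
      have h3 : ∑ i, b' i • T i = ∑ i ∈ S, b' i • T i := by
        symm
        apply Finset.sum_subset (Finset.subset_univ _)
        intro i _ hi
        simp [hb', hi]
      rw [h3, ← hsumS (fun i => b' i • T i)]
      exact Finset.sum_congr rfl fun x _ => by rw [hb'1]
    have h3 := hbmin b' h2 (by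
      intro i hi
      have : i ∉ S := by simp [hS, hi]
      simp [hb', this]) ⟨i1, h1, by simp [hb', hS]⟩
    intro x
    rw [← hb'1 x, h3]
    rfl
  have hrel : T i1 = ∑ x : Fin m, (-(b (φ x)) / b i1) • T (φ x) := by
    rw [hsumS (fun i => (-(b i) / b i1) • T i)]
    have h2 : ∑ i, b i • T i = b i1 • T i1 + ∑ i ∈ S, b i • T i := by
      have h3 : ∑ i, b i • T i = ∑ i ∈ Finset.univ.filter (fun i => b i ≠ 0), b i • T i := by
        symm
        apply Finset.sum_subset (Finset.subset_univ _)
        intro i _ hi
        have : b i = 0 := by simpa using hi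
        rw [this, zero_smul]
      rw [h3, ← Finset.add_sum_erase _ _ (show i1 ∈ Finset.univ.filter (fun i => b i ≠ 0) by
        simp [h1])]
    rw [h2] at hbrel
    have h4 : T i1 = -((b i1)⁻¹ • ∑ i ∈ S, b i • T i) := by
      have h5 : b i1 • T i1 = - ∑ i ∈ S, b i • T i := eq_neg_of_add_eq_zero_left hbrel
      calc T i1 = (b i1)⁻¹ • (b i1 • T i1) := by rw [smul_smul, inv_mul_cancel₀ h1, one_smul]
        _ = _ := by rw [h5, smul_neg]
    rw [h4, Finset.smul_sum, ← Finset.sum_neg_distrib]
    refine Finset.sum_congr rfl fun i _ => ?_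
    rw [smul_smul, ← neg_smul]
    congr 1
    rw [div_eq_mul_inv]
    ring
  have h0S : i0 ∈ S := by
    rw [hS, Finset.mem_erase]
    exact ⟨h01, by simp [h0]⟩
  have hx0 : φ (φ.symm ⟨i0, h0S⟩) = ⟨i0, h0S⟩ := φ.apply_symm_apply _
  have h5 := mason P hP hcop (fun x => Q (φ x)) (fun x => e (φ x)) (Q i1) (e i1)
    (fun x => -(b (φ x)) / b i1) hind hrel (φ.symm ⟨i0, h0S⟩) (by
      simp only [hx0]
      exact div_ne_zero (neg_ne_zero.mpr h0) h1) j0
  simp only [hx0] at h5
  refine h5.trans (Nat.add_le_add_left (Nat.add_le_add ?_ ?_) _)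
  · apply Nat.mul_le_mul_right
    rw [Fin.sum_univ_eq_sum_range (fun r => r) m, Finset.sum_range_id]
    apply Nat.div_le_div_right
    exact Nat.mul_le_mul hmk (by omega)
  · rw [Equiv.sum_comp φ (fun x : S => (Q x).totalDegree),
      Finset.sum_coe_sort S (fun i => (Q i).totalDegree)]
    exact Finset.sum_le_sum_of_subset (Finset.subset_univ _)

/-- The bound for the exponent differences. -/
noncomputable def gap {k N : ℕ} (P : Fin N → MvPolynomial (Fin n) K)
    (Q : Fin k → MvPolynomial (Fin n) K) : ℕ :=
  (k - 1) * (k - 2) / 2 * ∑ j, (P j).totalDegree + ∑ i, (Q i).totalDegree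

/-- The reduced sum of the cluster of the term `i`. -/
noncomputable def reduced {k N : ℕ} (B : ℕ) (P : Fin N → MvPolynomial (Fin n) K)
    (Q : Fin k → MvPolynomial (Fin n) K) (e : Fin k → Fin N → ℕ) (i : Fin k) :
    MvPolynomial (Fin n) K :=
  ∑ i' ∈ cluster B e i, Q i' * ∏ j, P j ^ (e i' j - low B e i j)

theorem prod_mul_reduced {k N : ℕ} (B : ℕ) (P : Fin N → MvPolynomial (Fin n) K)
    (Q : Fin k → MvPolynomial (Fin n) K) (e : Fin k → Fin N → ℕ) (i : Fin k) :
    (∏ j, P j ^ low B e i j) * reduced B P Q e i =
      ∑ i' ∈ cluster B e i, Q i' * ∏ j, P j ^ e i' j := by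
  rw [reduced, Finset.mul_sum]
  refine Finset.sum_congr rfl fun i' hi' => ?_
  rw [mul_left_comm, ← Finset.prod_mul_distrib]
  congr 1
  refine Finset.prod_congr rfl fun j _ => ?_
  rw [← pow_add, add_tsub_cancel_of_le (low_le B e i i' hi' j)]

theorem splitting [CharZero K] {k N : ℕ} (P : Fin N → MvPolynomial (Fin n) K)
    (hP : ∀ j, 1 ≤ (P j).totalDegree)
    (hcop : Pairwise (Function.onFun IsRelPrime P))
    (Q : Fin k → MvPolynomial (Fin n) K) (e : Fin k → Fin N → ℕ) :
    ∑ i, Q i * ∏ j, P j ^ e i j = 0 ↔ ∀ i, reduced (gap P Q) P Q e i = 0 := by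
  classical
  have hP0 : ∀ j, P j ≠ 0 := by
    intro j h
    have := hP j
    rw [h, MvPolynomial.totalDegree_zero] at this
    omega
  set B := gap P Q with hB
  set T : Fin k → MvPolynomial (Fin n) K := fun i => Q i * ∏ j, P j ^ e i j with hT
  have hiff : ∀ i, reduced B P Q e i = 0 ↔ ∑ i' ∈ cluster B e i, T i' = 0 := by
    intro i
    rw [← prod_mul_reduced]
    constructor
    · intro h; rw [h, mul_zero]
    · intro h
      exact (mul_eq_zero.mp h).resolve_left
        (Finset.prod_ne_zero_iff.mpr fun j _ => pow_ne_zero _ (hP0 j))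
  have hclsum : ∀ i, ∑ i' ∈ cluster B e i, T i' =
      ∑ i', (if (closeGraph B e).Reachable i i' then (1 : K) • T i' else 0) := by
    intro i
    rw [cluster, Finset.sum_filter]
    simp
  constructor
  · intro h i
    rw [hiff, hclsum]
    apply class_sum_eq_zero (K := K) T (fun i' => (closeGraph B e).Reachable i i') _ (fun _ => 1)
    · simpa using h
    · intro b hb i1 i2 h1 h2
      have hreach : (closeGraph B e).Reachable i1 i2 := by
        by_cases h12 : i1 = i2
        · rw [h12]
        apply SimpleGraph.Adj.reachable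
        refine ⟨h12, fun j => ⟨?_, ?_⟩⟩
        · exact minRel_close P hP hcop Q e b hb i2 i1 h2 h1 j
        · exact minRel_close P hP hcop Q e b hb i1 i2 h1 h2 j
      exact ⟨fun h => h.trans hreach, fun h => h.trans hreach.symm⟩
  · intro h
    -- sum over connected components
    have h1 : ∑ i, T i = ∑ c : (closeGraph B e).ConnectedComponent,
        ∑ i ∈ Finset.univ.filter (fun i => (closeGraph B e).connectedComponentMk i = c), T i :=
      (Finset.sum_fiberwise Finset.univ (fun i => (closeGraph B e).connectedComponentMk i) T).symm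
    rw [h1]
    refine Finset.sum_eq_zero fun c _ => ?_
    induction c using SimpleGraph.ConnectedComponent.ind with
    | _ i =>
      rw [← (hiff i).mp (h i), cluster]
      refine Finset.sum_congr (Finset.filter_congr fun i' _ => ?_) fun _ _ => rfl
      rw [SimpleGraph.ConnectedComponent.eq]
      exact ⟨fun h => h.symm, fun h => h.symm⟩

theorem totalDegree_reduced_le {k N : ℕ} (B : ℕ) (P : Fin N → MvPolynomial (Fin n) K)
    (Q : Fin k → MvPolynomial (Fin n) K) (e : Fin k → Fin N → ℕ) (i : Fin k) :
    (reduced B P Q e i).totalDegree ≤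
      ∑ i, (Q i).totalDegree + (k - 1) * B * ∑ j, (P j).totalDegree := by
  apply MvPolynomial.totalDegree_finsetSum_le
  intro i' hi'
  refine (MvPolynomial.totalDegree_mul _ _).trans (Nat.add_le_add ?_ ?_)
  · exact Finset.single_le_sum (f := fun i => (Q i).totalDegree) (by simp) (Finset.mem_univ i')
  · refine (MvPolynomial.totalDegree_finsetProd _ _).trans ?_
    rw [Finset.mul_sum]
    refine Finset.sum_le_sum fun j _ => ?_
    refine (MvPolynomial.totalDegree_pow _ _).trans ?_
    exact Nat.mul_le_mul_right _ (sub_low_le B e i i' hi' j)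

/-- A polynomial of total degree at most `M` over a field of characteristic zero vanishes iff
it vanishes on the grid `{0, …, M}^n`. -/
theorem eq_zero_iff_grid [CharZero K] (f : MvPolynomial (Fin n) K) (M : ℕ)
    (hM : f.totalDegree ≤ M) :
    f = 0 ↔ ∀ x : Fin n → ℕ, (∀ l, x l ≤ M) → MvPolynomial.eval (fun l => (x l : K)) f = 0 := by
  classical
  constructor
  · rintro rfl x _; simp
  · intro h
    apply MvPolynomial.eq_zero_of_eval_zero_at_prod_finset f
      (fun _ => (Finset.range (M + 1)).image (Nat.cast : ℕ → K))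
    · intro i
      rw [Finset.card_image_of_injective _ Nat.cast_injective, Finset.card_range]
      have := MvPolynomial.degreeOf_le_totalDegree f i
      omega
    · intro x hx
      have h1 : ∀ l, ∃ y : ℕ, y ≤ M ∧ (y : K) = x l := by
        intro l
        have := hx l
        simp only [Finset.mem_image, Finset.mem_range] at this
        obtain ⟨y, hy, hyx⟩ := this
        exact ⟨y, by omega, hyx⟩
      choose y hy hyx using h1
      have := h y hy
      rwa [show (fun l => (y l : K)) = x from funext hyx] at this

end Pool.Agent.V8H37.Pow
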