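import Mathlib
import Pool.Agent.V8H37.Pow.Cluster

/-!
# Identity testing with exponents in binary

Deterministic identity testing of `∑ i, Q_i * ∏ j, P_j ^ e_ij` (few low-degree polynomials
`P_j`, `Q_i`, arbitrary, possibly exponentially large exponents `e_ij` given in binary) reduces
to identity testing of the polynomially many reduced cluster sums, all of polynomial degree;
for a fixed number of variables these are tested on an explicit grid of polynomial size.
-/

namespace Pool.Agent.Results.MP_b2b50d_lc.BinaryExponents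

open Pool.Agent.V8H37.Pow MvPolynomial

theorem result {K : Type*} [Field K] [CharZero K] (n N k : ℕ)
    (P : Fin N → MvPolynomial (Fin n) K) (hP : ∀ j, 1 ≤ (P j).totalDegree)
    (hcop : ∀ j j', j ≠ j' → IsRelPrime (P j) (P j'))
    (Q : Fin k → MvPolynomial (Fin n) K) (e : Fin k → Fin N → ℕ) :
    let B := (k - 1) * (k - 2) / 2 * ∑ j, (P j).totalDegree + ∑ i, (Q i).totalDegree
    let M := ∑ i, (Q i).totalDegree + (k - 1) * B * ∑ j, (P j).totalDegree
    (∑ i, Q i * ∏ j, P j ^ e i j = 0 ↔
      ∀ i, ∑ i' ∈ cluster B e i, Q i' * ∏ j, P j ^ (e i' j - low B e i j) = 0) ∧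
    (∀ i, ∀ i' ∈ cluster B e i, ∀ j, e i' j - low B e i j ≤ (k - 1) * B) ∧
    (∀ i, (∑ i' ∈ cluster B e i, Q i' * ∏ j, P j ^ (e i' j - low B e i j)).totalDegree ≤ M) ∧
    (∑ i, Q i * ∏ j, P j ^ e i j = 0 ↔
      ∀ i, ∀ x : Fin n → ℕ, (∀ l, x l ≤ M) →
        ∑ i' ∈ cluster B e i, eval (fun l => (x l : K)) (Q i') *
          ∏ j, eval (fun l => (x l : K)) (P j) ^ (e i' j - low B e i j) = 0) := by
  intro B M
  have hcop' : Pairwise (Function.onFun IsRelPrime P) := fun j j' h => hcop j j' h
  have h1 := splitting P hP hcop' Q e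
  have h3 : ∀ i, (reduced B P Q e i).totalDegree ≤ M := fun i =>
    totalDegree_reduced_le B P Q e i
  refine ⟨h1, fun i i' hi' j => sub_low_le B e i i' hi' j, h3, ?_⟩
  refine h1.trans (forall_congr' fun i => ?_)
  rw [show gap P Q = B from rfl, eq_zero_iff_grid _ M (h3 i)]
  refine forall_congr' fun x => forall_congr' fun _ => ?_
  rw [reduced, map_sum]
  simp only [map_mul, map_prod, map_pow]

end Pool.Agent.Results.MP_b2b50d_lc.BinaryExponents
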