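import Mathlib
import Pool.Agent.V8H37.Pow.Mason

/-!
Order of vanishing at the origin of sums of products of powers.
-/

namespace Pool.Agent.V8H37.Pow

open MvPolynomial

variable {K : Type*} [Field K] {n : ℕ}

theorem prod_pow_dvd_eul {N : ℕ} (lam : Fin n → ℕ) (P : Fin N → MvPolynomial (Fin n) K)
    (c : Fin N → ℕ) (S : Finset (Fin N)) :
    ∏ j ∈ S, P j ^ (c j - 1) ∣ eul lam (∏ j ∈ S, P j ^ c j) := by
  classical
  induction S using Finset.induction_on with
  | empty => simp
  | insert a S ha ih =>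
    rw [Finset.prod_insert ha, Finset.prod_insert ha, Derivation.leibniz, smul_eq_mul,
      smul_eq_mul]
    apply dvd_add
    · exact mul_dvd_mul (pow_dvd_pow _ (Nat.sub_le _ _)) ih
    · rw [mul_comm (P a ^ (c a - 1))]
      exact mul_dvd_mul (Finset.prod_dvd_prod_of_dvd _ _ fun j _ => pow_dvd_pow _ (Nat.sub_le _ _))
        (pow_dvd_eul lam (P a) (P a ^ c a) (c a) dvd_rfl)

theorem prod_pow_dvd_eul' {N : ℕ} (lam : Fin n → ℕ) (P : Fin N → MvPolynomial (Fin n) K)
    (c : Fin N → ℕ) (f : MvPolynomial (Fin n) K) (h : ∏ j, P j ^ c j ∣ f) :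
    ∏ j, P j ^ (c j - 1) ∣ eul lam f := by
  obtain ⟨g, rfl⟩ := h
  rw [Derivation.leibniz, smul_eq_mul, smul_eq_mul]
  apply dvd_add
  · apply Dvd.dvd.mul_right
    exact Finset.prod_dvd_prod_of_dvd _ _ fun j _ => pow_dvd_pow _ (Nat.sub_le _ _)
  · exact Dvd.dvd.mul_left (prod_pow_dvd_eul lam P c Finset.univ) _

theorem prod_pow_dvd_eulIt {N : ℕ} (lam : Fin n → ℕ) (P : Fin N → MvPolynomial (Fin n) K)
    (c : Fin N → ℕ) (f : MvPolynomial (Fin n) K) (h : ∏ j, P j ^ c j ∣ f) (r : ℕ) :
    ∏ j, P j ^ (c j - r) ∣ eulIt lam r f := by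
  induction r with
  | zero => simpa [eulIt] using h
  | succ r ih =>
    rw [eulIt_succ]
    exact prod_pow_dvd_eul' lam P (fun j => c j - r) _ ih

theorem prod_pow_dvd_det {m N : ℕ} (lam : Fin n → ℕ) (P : Fin N → MvPolynomial (Fin n) K)
    (t : Fin m → MvPolynomial (Fin n) K) (b : Fin m → Fin N → ℕ)
    (h : ∀ i, ∏ j, P j ^ b i j ∣ t i) :
    ∏ j, P j ^ (∑ i, b i j - ∑ r : Fin m, (r : ℕ)) ∣
      (Matrix.of fun i r : Fin m => eulIt lam (r : ℕ) (t i)).det := by
  rw [Matrix.det_apply]
  apply Finset.dvd_sum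
  intro σ _
  rw [Units.smul_def, zsmul_eq_mul]
  apply Dvd.dvd.mul_left
  have h1 : ∏ r : Fin m, ∏ j, P j ^ (b (σ r) j - (r : ℕ)) ∣
      ∏ r : Fin m, (Matrix.of fun i r : Fin m => eulIt lam (r : ℕ) (t i)) (σ r) r := by
    apply Finset.prod_dvd_prod_of_dvd
    intro r _
    exact prod_pow_dvd_eulIt lam P _ _ (h (σ r)) _
  refine dvd_trans ?_ h1
  rw [Finset.prod_comm]
  apply Finset.prod_dvd_prod_of_dvd
  intro j _
  rw [Finset.prod_pow_eq_pow_sum]
  apply pow_dvd_pow
  have h2 : ∑ i, b i j = ∑ r, b (σ r) j := (Equiv.sum_comp σ fun i => b i j).symm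
  rw [h2]
  have h3 : ∑ r, b (σ r) j ≤ ∑ r, (b (σ r) j - (r : ℕ)) + ∑ r : Fin m, (r : ℕ) := by
    rw [← Finset.sum_add_distrib]
    exact Finset.sum_le_sum fun r _ => le_tsub_add
  omega

/-- All coefficients of degree at most `M` vanish. -/
def Van (M : ℕ) (g : MvPolynomial (Fin n) K) : Prop :=
  ∀ α : Fin n →₀ ℕ, α.degree ≤ M → coeff α g = 0

theorem Van.mul {M : ℕ} {g : MvPolynomial (Fin n) K} (h : Van M g)
    (g' : MvPolynomial (Fin n) K) : Van M (g * g') := by
  classical
  intro α hα
  rw [coeff_mul]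
  refine Finset.sum_eq_zero fun x hx => ?_
  have h1 : x.1 + x.2 = α := Finset.HasAntidiagonal.mem_antidiagonal.mp hx
  rw [h x.1 ?_, zero_mul]
  have h2 := congrArg Finsupp.degree h1
  rw [map_add] at h2
  omega

theorem Van.sum {ι : Type*} {M : ℕ} (S : Finset ι) {g : ι → MvPolynomial (Fin n) K}
    (h : ∀ i ∈ S, Van M (g i)) : Van M (∑ i ∈ S, g i) := by
  intro α hα
  rw [coeff_sum]
  exact Finset.sum_eq_zero fun i hi => h i hi α hα

theorem Van.eulIt {M : ℕ} {g : MvPolynomial (Fin n) K} (h : Van M g) (lam : Fin n → ℕ) (r : ℕ) :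
    Van M (eulIt lam r g) := by
  intro α hα
  rw [coeff_eulIt, h α hα, mul_zero]

theorem Van.of_mul {M : ℕ} {U G : MvPolynomial (Fin n) K} (hU : constantCoeff U ≠ 0)
    (h : Van M (U * G)) : Van M G := by
  classical
  have main : ∀ d : ℕ, ∀ α : Fin n →₀ ℕ, α.degree = d → d ≤ M → coeff α G = 0 := by
    intro d
    induction d using Nat.strong_induction_on with
    | _ d ih =>
      intro α hα hd
      have h1 := h α (by omega)
      rw [coeff_mul, ← Finset.add_sum_erase _ _ (show ((0 : Fin n →₀ ℕ), α) ∈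
        Finset.HasAntidiagonal.antidiagonal α by simp)] at h1
      have h2 : ∑ x ∈ (Finset.HasAntidiagonal.antidiagonal α).erase (0, α), coeff x.1 U * coeff x.2 G = 0 := by
        refine Finset.sum_eq_zero fun x hx => ?_
        have hx1 := Finset.ne_of_mem_erase hx
        have hx2 : x.1 + x.2 = α := Finset.HasAntidiagonal.mem_antidiagonal.mp (Finset.mem_of_mem_erase hx)
        have hx3 := congrArg Finsupp.degree hx2
        rw [map_add] at hx3
        have hx4 : x.1 ≠ 0 := by
          intro h0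
          apply hx1
          rw [h0, zero_add] at hx2
          exact Prod.ext h0 hx2
        have hx5 : Finsupp.degree x.1 ≠ 0 := by
          rwa [Ne, Finsupp.degree_eq_zero_iff]
        rw [ih (Finsupp.degree x.2) (by omega) x.2 rfl (by omega), mul_zero]
      rw [h2, add_zero] at h1
      exact (mul_eq_zero.mp h1).resolve_left hU
  exact fun α hα => main _ α rfl hα

theorem eq_zero_of_van {M : ℕ} {G : MvPolynomial (Fin n) K} (hG : G.totalDegree ≤ M)
    (h : Van M G) : G = 0 := by
  ext α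
  rw [coeff_zero]
  by_cases hα : α.degree ≤ M
  · exact h α hα
  · apply coeff_eq_zero_of_totalDegree_lt
    push Not at hα
    have : α.degree = ∑ i ∈ α.support, α i := rfl
    omega

theorem van_iff [CharZero K] {k N : ℕ} (P : Fin N → MvPolynomial (Fin n) K)
    (hP : ∀ j, constantCoeff (P j) ≠ 0)
    (Q : Fin k → MvPolynomial (Fin n) K) (e : Fin k → Fin N → ℕ)
    (h : Van (k * (k - 1) / 2 * ∑ j, (P j).totalDegree + ∑ i, (Q i).totalDegree)
      (∑ i, Q i * ∏ j, P j ^ e i j)) : ∑ i, Q i * ∏ j, P j ^ e i j = 0 := by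
  classical
  by_contra hf
  set T : Fin k → MvPolynomial (Fin n) K := fun i => Q i * ∏ j, P j ^ e i j with hT
  set f := ∑ i, T i with hfdef
  set M := k * (k - 1) / 2 * ∑ j, (P j).totalDegree + ∑ i, (Q i).totalDegree with hM
  obtain ⟨κ, a, hainj, hspan, hind⟩ := exists_linearIndependent' K T
  have : Fintype κ := Fintype.ofInjective a hainj
  set m := Fintype.card κ with hm
  have hmk : m ≤ k := by
    simpa using Fintype.card_le_of_injective a hainj
  set φ : Fin m ≃ κ := (Fintype.equivFin κ).symm with hφ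
  set t : Fin m → MvPolynomial (Fin n) K := fun x => T (a (φ x)) with ht
  have htind : LinearIndependent K t := hind.comp φ φ.injective
  have hfmem : f ∈ Submodule.span K (Set.range t) := by
    have h1 : Set.range t = Set.range (T ∘ a) := by
      have : t = (T ∘ a) ∘ φ := rfl
      rw [this, Set.range_comp, φ.surjective.range_eq, Set.image_univ]
    rw [h1, hspan]
    exact Submodule.sum_mem _ fun i _ => Submodule.subset_span ⟨i, rfl⟩
  obtain ⟨c, hc⟩ := (Submodule.mem_span_range_iff_exists_fun K).mp hfmem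
  obtain ⟨x0, hx0⟩ : ∃ x, c x ≠ 0 := by
    by_contra hcon
    push Not at hcon
    apply hf
    rw [← hc]
    exact Finset.sum_eq_zero fun x _ => by rw [hcon x, zero_smul]
  obtain ⟨lam, hdet⟩ := exists_det_ne_zero t htind
  set W := (Matrix.of fun i r : Fin m => eulIt lam (r : ℕ) (t i)).det with hW
  set M2 := ∑ r : Fin m, (r : ℕ) with hM2
  have hM2le : M2 ≤ k * (k - 1) / 2 := by
    rw [hM2, Fin.sum_univ_eq_sum_range (fun r => r) m, Finset.sum_range_id]
    apply Nat.div_le_div_right
    exact Nat.mul_le_mul hmk (by omega)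
  have hP0 : ∀ j, P j ≠ 0 := by
    intro j h0
    apply hP j
    rw [h0, map_zero]
  have hdegprod : ∀ (x : Fin N → ℕ), (∏ j, P j ^ x j).totalDegree =
      ∑ j, x j * (P j).totalDegree := by
    intro x
    rw [totalDegree_prod_eq _ _ (fun j => pow_ne_zero _ (hP0 j))]
    exact Finset.sum_congr rfl fun j _ => totalDegree_pow_eq _ (hP0 j) _
  obtain ⟨G, hG⟩ := prod_pow_dvd_det lam P t (fun x => e (a (φ x)))
    (fun x => Dvd.dvd.mul_left dvd_rfl _)
  rw [← hW, ← hM2] at hG
  set C : Fin N → ℕ := fun j => ∑ x, e (a (φ x)) j - M2 with hC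
  have hU0 : ∏ j, P j ^ C j ≠ 0 := Finset.prod_ne_zero_iff.mpr fun j _ => pow_ne_zero _ (hP0 j)
  have hG0 : G ≠ 0 := by
    rintro rfl
    exact hdet (by rw [hG, mul_zero])
  have hGdeg : G.totalDegree ≤ M := by
    have h1 : (∏ j, P j ^ C j).totalDegree + G.totalDegree = W.totalDegree := by
      rw [hG, MvPolynomial.totalDegree_mul_of_isDomain hU0 hG0]
    have h2 : W.totalDegree ≤ ∑ x, ((Q (a (φ x))).totalDegree +
        ∑ j, e (a (φ x)) j * (P j).totalDegree) := by
      refine (totalDegree_det_le lam t).trans (Finset.sum_le_sum fun i _ => ?_)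
      refine (MvPolynomial.totalDegree_mul _ _).trans ?_
      rw [hdegprod]
    rw [hdegprod] at h1
    rw [Finset.sum_add_distrib, Finset.sum_comm] at h2
    have h3 : ∑ j, ∑ x, e (a (φ x)) j * (P j).totalDegree ≤
        ∑ j, C j * (P j).totalDegree + M2 * ∑ j, (P j).totalDegree := by
      rw [Finset.mul_sum, ← Finset.sum_add_distrib]
      refine Finset.sum_le_sum fun j _ => ?_
      rw [← Finset.sum_mul, ← add_mul]
      exact Nat.mul_le_mul_right _ le_tsub_add
    have h4 : ∑ x, (Q (a (φ x))).totalDegree ≤ ∑ i, (Q i).totalDegree := by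
      have hinj : Function.Injective (fun x => a (φ x)) := hainj.comp φ.injective
      rw [← Finset.sum_image (f := fun i => (Q i).totalDegree) (s := Finset.univ)
        (g := fun x => a (φ x)) (fun x _ y _ hxy => hinj hxy)]
      exact Finset.sum_le_sum_of_subset (Finset.subset_univ _)
    have h5 : M2 * ∑ j, (P j).totalDegree ≤ k * (k - 1) / 2 * ∑ j, (P j).totalDegree :=
      Nat.mul_le_mul_right _ hM2le
    omega
  -- the determinant with the row x0 replaced by f
  have hvanW : Van M W := by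
    have h2 : (Matrix.of fun i r : Fin m => eulIt lam (r : ℕ) (Function.update t x0 f i)) =
        (Matrix.of fun i r : Fin m => eulIt lam (r : ℕ) (t i)).updateRow x0
          (∑ i, (MvPolynomial.C (c i) : MvPolynomial (Fin n) K) •
            (Matrix.of fun i r : Fin m => eulIt lam (r : ℕ) (t i)) i) := by
      refine Matrix.ext fun i r => ?_
      rw [Matrix.of_apply]
      by_cases hi : i = x0
      · subst hi
        rw [Function.update_self, Matrix.updateRow_self, ← hc, eulIt_sum, Finset.sum_apply]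
        refine Finset.sum_congr rfl fun i _ => ?_
        rw [eulIt_smul, Pi.smul_apply, Matrix.of_apply, smul_eq_mul, MvPolynomial.smul_eq_C_mul]
      · rw [Function.update_of_ne hi, Matrix.updateRow_ne hi, Matrix.of_apply]
    have h3 : Van M (MvPolynomial.C (c x0) * W) := by
      have hd := Matrix.det_updateRow_sum
        (Matrix.of fun i r : Fin m => eulIt lam (r : ℕ) (t i)) x0
        (fun i => (MvPolynomial.C (c i) : MvPolynomial (Fin n) K))
      rw [← h2, smul_eq_mul, ← hW] at hd
      rw [← hd, Matrix.det_apply]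
      apply Van.sum
      intro σ _
      rw [Units.smul_def, zsmul_eq_mul, mul_comm]
      apply Van.mul
      rw [← Finset.mul_prod_erase _ _ (Finset.mem_univ (σ.symm x0))]
      apply Van.mul
      rw [Matrix.of_apply, Equiv.apply_symm_apply, Function.update_self]
      exact h.eulIt _ _
    intro α hα
    have h4 := h3 α hα
    rw [MvPolynomial.coeff_C_mul] at h4
    exact (mul_eq_zero.mp h4).resolve_left hx0
  have hvanG : Van M G := by
    apply Van.of_mul (U := ∏ j, P j ^ C j) _ (hG ▸ hvanW)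
    rw [map_prod]
    refine Finset.prod_ne_zero_iff.mpr fun j _ => ?_
    rw [map_pow]
    exact pow_ne_zero _ (hP j)
  exact hG0 (eq_zero_of_van hGdeg hvanG)

end Pool.Agent.V8H37.Pow
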