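import Mathlib
import Pool.Agent.V8H37.Pow.Cluster

/-!
Set-multilinear compositions: power products in disjoint blocks of variables.
-/

namespace Pool.Agent.V8H37.Pow

open MvPolynomial

variable {K : Type*} [Field K] {n : ℕ}

/-- The splitting theorem with any larger gap. -/
theorem splitting_of_le [CharZero K] {k N : ℕ} (P : Fin N → MvPolynomial (Fin n) K)
    (hP : ∀ j, 1 ≤ (P j).totalDegree)
    (hcop : Pairwise (Function.onFun IsRelPrime P))
    (Q : Fin k → MvPolynomial (Fin n) K) (e : Fin k → Fin N → ℕ) (B : ℕ) (hB : gap P Q ≤ B) :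
    ∑ i, Q i * ∏ j, P j ^ e i j = 0 ↔ ∀ i, reduced B P Q e i = 0 := by
  classical
  have hP0 : ∀ j, P j ≠ 0 := by
    intro j h
    have := hP j
    rw [h, MvPolynomial.totalDegree_zero] at this
    omega
  set T : Fin k → MvPolynomial (Fin n) K := fun i => Q i * ∏ j, P j ^ e i j with hT
  have hiff : ∀ i, reduced B P Q e i = 0 ↔ ∑ i' ∈ cluster B e i, T i' = 0 := by
    intro i
    rw [← prod_mul_reduced]
    constructor
    · intro h; rw [h, mul_zero]
    · intro h
      exact (mul_eq_zero.mp h).resolve_left
        (Finset.prod_ne_zero_iff.mpr fun j _ => pow_ne_zero _ (hP0 j))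
  have hclsum : ∀ i, ∑ i' ∈ cluster B e i, T i' =
      ∑ i', (if (closeGraph B e).Reachable i i' then (1 : K) • T i' else 0) := by
    intro i
    rw [cluster, Finset.sum_filter]
    simp
  constructor
  · intro h i
    rw [hiff, hclsum]
    apply class_sum_eq_zero (K := K) T (fun i' => (closeGraph B e).Reachable i i') _ (fun _ => 1)
    · simpa using h
    · intro b hb i1 i2 h1 h2
      have hreach : (closeGraph B e).Reachable i1 i2 := by
        by_cases h12 : i1 = i2
        · rw [h12]
        apply SimpleGraph.Adj.reachable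
        refine ⟨h12, fun j => ⟨?_, ?_⟩⟩
        · exact (minRel_close P hP hcop Q e b hb i2 i1 h2 h1 j).trans
            (Nat.add_le_add_left hB _)
        · exact (minRel_close P hP hcop Q e b hb i1 i2 h1 h2 j).trans
            (Nat.add_le_add_left hB _)
      exact ⟨fun h => h.trans hreach, fun h => h.trans hreach.symm⟩
  · intro h
    have h1 : ∑ i, T i = ∑ c : (closeGraph B e).ConnectedComponent,
        ∑ i ∈ Finset.univ.filter (fun i => (closeGraph B e).connectedComponentMk i = c), T i :=
      (Finset.sum_fiberwise Finset.univ (fun i => (closeGraph B e).connectedComponentMk i) T).symm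
    rw [h1]
    refine Finset.sum_eq_zero fun c _ => ?_
    induction c using SimpleGraph.ConnectedComponent.ind with
    | _ i =>
      rw [← (hiff i).mp (h i), cluster]
      refine Finset.sum_congr (Finset.filter_congr fun i' _ => ?_) fun _ _ => rfl
      rw [SimpleGraph.ConnectedComponent.eq]
      exact ⟨fun h => h.symm, fun h => h.symm⟩

/-- The least index in the cluster of `i`, as a natural number. -/
noncomputable def rep {k N : ℕ} (B : ℕ) (e : Fin k → Fin N → ℕ) (i : Fin k) : ℕ :=
  ((cluster B e i).min' ⟨i, mem_cluster_self B e i⟩ : Fin k)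

theorem cluster_eq {k N : ℕ} {B : ℕ} {e : Fin k → Fin N → ℕ} {i i' : Fin k}
    (h : i' ∈ cluster B e i) : cluster B e i' = cluster B e i := by
  have h1 : (closeGraph B e).Reachable i i' := by
    simpa [cluster] using h
  ext x
  simp only [cluster, Finset.mem_filter, Finset.mem_univ, true_and]
  exact ⟨fun h => h1.trans h, fun h => h1.symm.trans h⟩

theorem rep_eq_iff {k N : ℕ} {B : ℕ} {e : Fin k → Fin N → ℕ} {i i' : Fin k} :
    rep B e i' = rep B e i ↔ i' ∈ cluster B e i := by
  constructor
  · intro h
    have h1 := Fin.ext h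
    have h2 := Finset.min'_mem (cluster B e i) ⟨i, mem_cluster_self B e i⟩
    have h3 := Finset.min'_mem (cluster B e i') ⟨i', mem_cluster_self B e i'⟩
    rw [h1] at h3
    rw [← cluster_eq h2, cluster_eq h3]
    exact mem_cluster_self B e i'
  · intro h
    have := cluster_eq h
    simp only [rep, this]

theorem rep_lt {k N : ℕ} (B : ℕ) (e : Fin k → Fin N → ℕ) (i : Fin k) : rep B e i < k :=
  ((cluster B e i).min' ⟨i, mem_cluster_self B e i⟩).2

theorem low_eq {k N : ℕ} {B : ℕ} {e : Fin k → Fin N → ℕ} {i i' : Fin k}
    (h : i' ∈ cluster B e i) (j : Fin N) : low B e i' j = low B e i j := by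
  have := cluster_eq h
  simp only [low, this]

/-- One block: the power products and the reduced, tagged ones have the same relations. -/
theorem relation_iff [CharZero K] {k N : ℕ} (P : Fin N → MvPolynomial (Fin n) K)
    (hP : ∀ j, 1 ≤ (P j).totalDegree)
    (hcop : Pairwise (Function.onFun IsRelPrime P))
    (Q : Fin k → MvPolynomial (Fin n) K) (e : Fin k → Fin N → ℕ) (a : Fin k → K) :
    (∀ x : Fin n → K, ∑ l, a l * (eval x (Q l) * ∏ j, eval x (P j) ^ e l j) = 0) ↔
    (∀ z : (Fin n → K) × K, ∑ l, a l * (z.2 ^ rep (gap P Q) e l * (eval z.1 (Q l) *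
      ∏ j, eval z.1 (P j) ^ (e l j - low (gap P Q) e l j))) = 0) := by
  classical
  set B := gap P Q with hB
  set Q' : Fin k → MvPolynomial (Fin n) K := fun l => C (a l) * Q l with hQ'
  have hgap : gap P Q' ≤ B := by
    rw [hB, gap, gap]
    refine Nat.add_le_add_left (Finset.sum_le_sum fun l _ => ?_) _
    refine (MvPolynomial.totalDegree_mul _ _).trans ?_
    rw [MvPolynomial.totalDegree_C, zero_add]
  have h1 := splitting_of_le P hP hcop Q' e B hgap
  have h2 : (∀ x : Fin n → K, ∑ l, a l * (eval x (Q l) * ∏ j, eval x (P j) ^ e l j) = 0) ↔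
      ∑ i, Q' i * ∏ j, P j ^ e i j = 0 := by
    constructor
    · intro h
      apply MvPolynomial.funext
      intro x
      rw [map_zero, ← h x, map_sum]
      refine Finset.sum_congr rfl fun l _ => ?_
      simp only [hQ', map_mul, eval_C, map_prod, map_pow, mul_assoc]
    · intro h x
      have h3 := congrArg (eval x) h
      rw [map_zero, map_sum] at h3
      rw [← h3]
      refine Finset.sum_congr rfl fun l _ => ?_
      simp only [hQ', map_mul, eval_C, map_prod, map_pow, mul_assoc]
  rw [h2, h1]
  -- evaluation of the reduced sums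
  have h4 : ∀ (i : Fin k) (x : Fin n → K), eval x (reduced B P Q' e i) =
      ∑ l ∈ Finset.univ.filter (fun l => rep B e l = rep B e i),
        a l * (eval x (Q l) * ∏ j, eval x (P j) ^ (e l j - low B e l j)) := by
    intro i x
    rw [reduced, map_sum]
    have hset : cluster B e i = Finset.univ.filter (fun l => rep B e l = rep B e i) := by
      ext l
      simp only [Finset.mem_filter, Finset.mem_univ, true_and]
      exact rep_eq_iff.symm
    rw [← hset]
    refine Finset.sum_congr rfl fun l hl => ?_
    simp only [hQ', map_mul, eval_C, map_prod, map_pow, mul_assoc, low_eq hl]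
  constructor
  · intro h z
    have h5 : ∑ l, a l * (z.2 ^ rep B e l * (eval z.1 (Q l) *
        ∏ j, eval z.1 (P j) ^ (e l j - low B e l j))) =
        ∑ r ∈ Finset.range k, z.2 ^ r * ∑ l ∈ Finset.univ.filter (fun l => rep B e l = r),
          a l * (eval z.1 (Q l) * ∏ j, eval z.1 (P j) ^ (e l j - low B e l j)) := by
      rw [← Finset.sum_fiberwise_of_maps_to (s := Finset.univ) (t := Finset.range k)
        (g := fun l => rep B e l) (fun l _ => Finset.mem_range.mpr (rep_lt B e l))]
      refine Finset.sum_congr rfl fun r _ => ?_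
      rw [Finset.mul_sum]
      refine Finset.sum_congr rfl fun l hl => ?_
      rw [(Finset.mem_filter.mp hl).2]
      ring
    rw [h5]
    refine Finset.sum_eq_zero fun r _ => ?_
    by_cases hr : ∃ i, rep B e i = r
    · obtain ⟨i, rfl⟩ := hr
      rw [← h4 i z.1, h i, map_zero, mul_zero]
    · push Not at hr
      have : Finset.univ.filter (fun l => rep B e l = r) = ∅ :=
        Finset.filter_eq_empty_iff.mpr fun l _ => hr l
      rw [this, Finset.sum_empty, mul_zero]
  · intro h i
    apply MvPolynomial.funext
    intro x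
    rw [map_zero, h4]
    -- a univariate polynomial vanishing everywhere
    set p : Polynomial K := ∑ l, Polynomial.C (a l * (eval x (Q l) *
      ∏ j, eval x (P j) ^ (e l j - low B e l j))) * Polynomial.X ^ rep B e l with hp
    have hp0 : p = 0 := by
      apply Polynomial.funext
      intro y
      rw [hp, Polynomial.eval_finsetSum, Polynomial.eval_zero, ← h (x, y)]
      refine Finset.sum_congr rfl fun l _ => ?_
      simp only [Polynomial.eval_mul, Polynomial.eval_C, Polynomial.eval_pow, Polynomial.eval_X]
      ring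
    have h6 := congrArg (fun q => Polynomial.coeff q (rep B e i)) hp0
    simp only [hp, Polynomial.finsetSum_coeff, Polynomial.coeff_C_mul, Polynomial.coeff_X_pow,
      Polynomial.coeff_zero, mul_ite, mul_one, mul_zero] at h6
    rw [Finset.sum_filter]
    refine Eq.trans (Finset.sum_congr rfl fun l _ => ?_) h6
    by_cases hl : rep B e l = rep B e i
    · rw [if_pos hl, if_pos hl.symm]
    · rw [if_neg hl, if_neg (fun h => hl h.symm)]

/-- Replacing the blocks one after the other. -/
theorem hybrid {ι : Type*} [Fintype ι] [DecidableEq ι] {k : ℕ} {X Y : ι → Type*}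
    (u : ∀ i, Fin k → X i → K) (v : ∀ i, Fin k → Y i → K)
    (h : ∀ i, ∀ a : Fin k → K, (∀ x, ∑ l, a l * u i l x = 0) → ∀ y, ∑ l, a l * v i l y = 0)
    (c : (ι → Fin k) → K)
    (h0 : ∀ x : ∀ i, X i, ∑ w, c w * ∏ i, u i (w i) (x i) = 0)
    (x : ∀ i, X i) (y : ∀ i, Y i) : ∑ w, c w * ∏ i, v i (w i) (y i) = 0 := by
  classical
  have main : ∀ s : Finset ι, ∀ (x : ∀ i, X i) (y : ∀ i, Y i),
      ∑ w, c w * ∏ i, (if i ∈ s then v i (w i) (y i) else u i (w i) (x i)) = 0 := by
    intro s
    induction s using Finset.induction_on with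
    | empty => intro x y; simpa using h0 x
    | insert i0 s hi0 ih =>
      intro x y
      set A : Fin k → K := fun l => ∑ w ∈ Finset.univ.filter (fun w : ι → Fin k => w i0 = l),
        c w * ∏ i ∈ Finset.univ.erase i0, (if i ∈ s then v i (w i) (y i) else u i (w i) (x i))
        with hA
      have hsum : ∀ g : Fin k → K, ∑ l, A l * g l = ∑ w, c w * (g (w i0) *
          ∏ i ∈ Finset.univ.erase i0, (if i ∈ s then v i (w i) (y i) else u i (w i) (x i))) := by
        intro g
        rw [← Finset.sum_fiberwise Finset.univ (fun w : ι → Fin k => w i0)]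
        refine Finset.sum_congr rfl fun l _ => ?_
        rw [hA, Finset.sum_mul]
        refine Finset.sum_congr rfl fun w hw => ?_
        rw [(Finset.mem_filter.mp hw).2]
        ring
      have h1 : ∀ x' : X i0, ∑ l, A l * u i0 l x' = 0 := by
        intro x'
        rw [hsum, ← ih (Function.update x i0 x') y]
        refine Finset.sum_congr rfl fun w _ => ?_
        rw [← Finset.mul_prod_erase Finset.univ _ (Finset.mem_univ i0), if_neg hi0,
          Function.update_self]
        congr 2
        refine Finset.prod_congr rfl fun i hi => ?_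
        rw [Function.update_of_ne (Finset.ne_of_mem_erase hi)]
      have h2 := h i0 A h1 (y i0)
      rw [hsum] at h2
      rw [← h2]
      refine Finset.sum_congr rfl fun w _ => ?_
      rw [← Finset.mul_prod_erase Finset.univ _ (Finset.mem_univ i0),
        if_pos (Finset.mem_insert_self i0 s)]
      congr 2
      refine Finset.prod_congr rfl fun i hi => ?_
      have : i ∈ insert i0 s ↔ i ∈ s := by
        rw [Finset.mem_insert]
        exact ⟨fun h => h.resolve_left (Finset.ne_of_mem_erase hi), Or.inr⟩
      simp only [this]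
  simpa using main Finset.univ x y

theorem tensor_iff [CharZero K] {b k N : ℕ} (P : Fin b → Fin N → MvPolynomial (Fin n) K)
    (hP : ∀ i j, 1 ≤ (P i j).totalDegree)
    (hcop : ∀ i j j', j ≠ j' → IsRelPrime (P i j) (P i j'))
    (Q : Fin b → Fin k → MvPolynomial (Fin n) K) (e : Fin b → Fin k → Fin N → ℕ)
    (c : (Fin b → Fin k) → K) :
    (∀ x : Fin b → Fin n → K,
      ∑ w, c w * ∏ i, (eval (x i) (Q i (w i)) * ∏ j, eval (x i) (P i j) ^ e i (w i) j) = 0) ↔
    (∀ (x : Fin b → Fin n → K) (y : Fin b → K),
      ∑ w, c w * ∏ i, (y i ^ rep (gap (P i) (Q i)) (e i) (w i) * (eval (x i) (Q i (w i)) *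
        ∏ j, eval (x i) (P i j) ^
          (e i (w i) j - low (gap (P i) (Q i)) (e i) (w i) j))) = 0) := by
  have hc : ∀ i, Pairwise (Function.onFun IsRelPrime (P i)) := fun i j j' h => hcop i j j' h
  constructor
  · intro h x y
    have := hybrid (K := K) (X := fun _ : Fin b => Fin n → K)
      (Y := fun _ : Fin b => (Fin n → K) × K)
      (fun i l x => eval x (Q i l) * ∏ j, eval x (P i j) ^ e i l j)
      (fun i l z => z.2 ^ rep (gap (P i) (Q i)) (e i) l * (eval z.1 (Q i l) *
        ∏ j, eval z.1 (P i j) ^ (e i l j - low (gap (P i) (Q i)) (e i) l j)))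
      (fun i a ha => (relation_iff (P i) (hP i) (hc i) (Q i) (e i) a).mp ha)
      c h x (fun i => (x i, y i))
    exact this
  · intro h x
    have := hybrid (K := K) (Y := fun _ : Fin b => Fin n → K)
      (X := fun _ : Fin b => (Fin n → K) × K)
      (fun i l z => z.2 ^ rep (gap (P i) (Q i)) (e i) l * (eval z.1 (Q i l) *
        ∏ j, eval z.1 (P i j) ^ (e i l j - low (gap (P i) (Q i)) (e i) l j)))
      (fun i l x => eval x (Q i l) * ∏ j, eval x (P i j) ^ e i l j)
      (fun i a ha => (relation_iff (P i) (hP i) (hc i) (Q i) (e i) a).mpr ha)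
      c (fun z => h (fun i => (z i).1) (fun i => (z i).2)) (fun i => (x i, 0)) x
    exact this

end Pool.Agent.V8H37.Pow
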